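import Pool.Agent.Helper19.HO.Defs
import Mathlib.LinearAlgebra.Eigenspace.Minpoly

/-! HO-15: a projection which identifies two points. -/

open MeasureTheory Set Metric Filter Module
open scoped NNReal Topology RealInnerProductSpace ENNReal Real ContDiff Manifold

namespace Pool.Agent.Helper19.HO

section Crofton

variable {E H ι : Type*} [NormedAddCommGroup E] [InnerProductSpace ℝ E] [NormedAddCommGroup H]
  [InnerProductSpace ℝ H] [Fintype ι]

theorem ho15_act_eq (b : OrthonormalBasis ι ℝ H) (f : H →ₗ[ℝ] E) (x : H) :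
    act b (WithLp.toLp 2 (fun j => f (b j))) x = f x := by
  unfold act
  simp only [FunLike.coe_sum, Finset.sum_apply,
    ContinuousLinearMap.smulRight_apply, innerSL_apply_apply]
  conv_rhs => rw [← b.sum_repr' x]
  rw [map_sum]
  refine Finset.sum_congr rfl fun j _ => ?_
  rw [map_smul]

theorem ho15_exists_left {D : E →ₗ[ℝ] H} (hD : Function.Injective D) (h : H)
    (h1 : h ∉ range D) : ∃ f : H →ₗ[ℝ] E, f h = 0 ∧ ∀ x, f (D x) = x := by
  let G : E × ℝ →ₗ[ℝ] H := LinearMap.coprod D ((LinearMap.id : ℝ →ₗ[ℝ] ℝ).smulRight h)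
  have hG : ∀ z : E × ℝ, G z = D z.1 + z.2 • h := fun z => by simp [G]
  have hker : LinearMap.ker G = ⊥ := by
    rw [LinearMap.ker_eq_bot']
    rintro ⟨x, t⟩ hz
    rw [hG] at hz
    simp only at hz
    have ht : t = 0 := by
      by_contra ht
      apply h1
      refine ⟨-t⁻¹ • x, ?_⟩
      have h2 : D x = -(t • h) := eq_neg_of_add_eq_zero_left hz
      rw [map_smul, h2, smul_neg, neg_smul, neg_neg, smul_smul, inv_mul_cancel₀ ht, one_smul]
    subst ht
    rw [zero_smul, add_zero] at hz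
    have hx : x = 0 := hD (by rw [hz, map_zero])
    rw [hx]
    rfl
  obtain ⟨g, hg⟩ := G.exists_leftInverse_of_injective hker
  refine ⟨LinearMap.fst ℝ E ℝ ∘ₗ g, ?_, fun x => ?_⟩
  · have h2 : G (0, 1) = h := by rw [hG]; simp
    have h3 := LinearMap.congr_fun hg (0, 1)
    rw [LinearMap.comp_apply, h2] at h3
    rw [LinearMap.comp_apply, h3]
    rfl
  · have h2 : G (x, 0) = D x := by rw [hG]; simp
    have h3 := LinearMap.congr_fun hg (x, 0)
    rw [LinearMap.comp_apply, h2] at h3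
    rw [LinearMap.comp_apply, h3]
    rfl

variable [FiniteDimensional ℝ E]

theorem ho15_exists_t (M₁ M₂ : E →ₗ[ℝ] E) :
    ∃ t : ℝ, LinearMap.det (LinearMap.id + t • M₁) ≠ 0 ∧
      LinearMap.det (M₂ + t • LinearMap.id) ≠ 0 := by
  classical
  have hfin : {t : ℝ | LinearMap.det (M₂ + t • LinearMap.id) = 0}.Finite := by
    refine (Module.End.finite_hasEigenvalue (-M₂)).subset ?_
    intro t ht
    have h2 := LinearMap.bot_lt_ker_of_det_eq_zero (f := M₂ + t • LinearMap.id) ht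
    obtain ⟨x, hx, hx0⟩ := (Submodule.ne_bot_iff _).1 (bot_lt_iff_ne_bot.1 h2)
    refine Module.End.hasEigenvalue_of_hasEigenvector (x := x) ?_
    rw [Module.End.hasEigenvector_iff]
    refine ⟨?_, hx0⟩
    rw [Module.End.mem_eigenspace_iff]
    rw [LinearMap.mem_ker] at hx
    have h3 : M₂ x + t • x = 0 := by simpa using hx
    rw [LinearMap.neg_apply]
    exact neg_eq_of_add_eq_zero_right h3
  have hfin1 : {t : ℝ | LinearMap.det (LinearMap.id + t • M₁) = 0}.Finite := by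
    refine ((Module.End.finite_hasEigenvalue M₁).image (fun s => -s⁻¹)).subset ?_
    intro t ht
    have h2 := LinearMap.bot_lt_ker_of_det_eq_zero (f := LinearMap.id + t • M₁) ht
    obtain ⟨x, hx, hx0⟩ := (Submodule.ne_bot_iff _).1 (bot_lt_iff_ne_bot.1 h2)
    rw [LinearMap.mem_ker] at hx
    have h3 : x + t • M₁ x = 0 := by simpa using hx
    have ht0 : t ≠ 0 := by
      rintro rfl
      rw [zero_smul, add_zero] at h3
      exact hx0 h3
    refine ⟨-t⁻¹, ?_, by simp⟩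
    refine Module.End.hasEigenvalue_of_hasEigenvector (x := x) ?_
    rw [Module.End.hasEigenvector_iff]
    refine ⟨?_, hx0⟩
    rw [Module.End.mem_eigenspace_iff]
    have h4 : t • M₁ x = -x := eq_neg_of_add_eq_zero_right h3
    rw [neg_smul, ← smul_neg, ← h4, smul_smul, inv_mul_cancel₀ ht0, one_smul]
  obtain ⟨t, ht⟩ := (hfin1.union hfin).infinite_compl.nonempty
  rw [mem_compl_iff, mem_union, not_or] at ht
  exact ⟨t, ht.1, ht.2⟩

variable [FiniteDimensional ℝ H]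

theorem exists_proj (b : OrthonormalBasis ι ℝ H) (D₁ D₂ : E →L[ℝ] H) (hD₁ : Function.Injective D₁)
    (hD₂ : Function.Injective D₂) (h : H) (h1 : h ∉ range D₁) (h2 : h ∉ range D₂) :
    ∃ p : PiLp 2 (fun _ : ι => E), act b p h = 0 ∧ (act b p ∘L D₁).det ≠ 0 ∧
      (act b p ∘L D₂).det ≠ 0 := by
  obtain ⟨f₁, hf₁, hg₁⟩ := ho15_exists_left (D := (D₁ : E →ₗ[ℝ] H)) hD₁ h h1
  obtain ⟨f₂, hf₂, hg₂⟩ := ho15_exists_left (D := (D₂ : E →ₗ[ℝ] H)) hD₂ h h2
  obtain ⟨t, ht1, ht2⟩ := ho15_exists_t (f₂ ∘ₗ (D₁ : E →ₗ[ℝ] H)) (f₁ ∘ₗ (D₂ : E →ₗ[ℝ] H))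
  refine ⟨WithLp.toLp 2 (fun j => (f₁ + t • f₂) (b j)), ?_, ?_, ?_⟩
  · rw [ho15_act_eq b (f₁ + t • f₂) h, LinearMap.add_apply, LinearMap.smul_apply, hf₁, hf₂,
      smul_zero, add_zero]
  · have h3 : ((act b (WithLp.toLp 2 (fun j => (f₁ + t • f₂) (b j))) ∘L D₁ : E →L[ℝ] E) :
        E →ₗ[ℝ] E) = LinearMap.id + t • (f₂ ∘ₗ (D₁ : E →ₗ[ℝ] H)) := by
      ext x
      rw [ContinuousLinearMap.coe_coe, ContinuousLinearMap.comp_apply, ho15_act_eq b (f₁ + t • f₂)]
      have := hg₁ x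
      rw [ContinuousLinearMap.coe_coe] at this
      simp [this]
    rw [ContinuousLinearMap.det, h3]
    exact ht1
  · have h3 : ((act b (WithLp.toLp 2 (fun j => (f₁ + t • f₂) (b j))) ∘L D₂ : E →L[ℝ] E) :
        E →ₗ[ℝ] E) = (f₁ ∘ₗ (D₂ : E →ₗ[ℝ] H)) + t • LinearMap.id := by
      ext x
      rw [ContinuousLinearMap.coe_coe, ContinuousLinearMap.comp_apply, ho15_act_eq b (f₁ + t • f₂)]
      have := hg₂ x
      rw [ContinuousLinearMap.coe_coe] at this
      simp [this]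
    rw [ContinuousLinearMap.det, h3]
    exact ht2

end Crofton

end Pool.Agent.Helper19.HO
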